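import Mathlib
import Pool.Agent.H584R3.RoeDefs
import Pool.Agent.H584R3.Roe5

/-!
# Q1: an embedding of uniform Roe algebras with no rank preserving cut-down

The definitions are in `Pool/Agent/H584R3/RoeDefs.lean` and follow the problem file.
-/

namespace Pool.Agent.Results.MP_ab5103_an.NoRankCutDown

open H584RoeDefs

/-- There are uniformly locally finite metric spaces `X`, `Y`, the space `Y` having property A,
and an embedding `Φ` of the uniform Roe algebra of `X` into that of `Y`, such that for no
projection `p` in the relative commutant of the range of `Φ` in the uniform Roe algebra of `Y` is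
the cut-down `a ↦ p Φ(a) p` a rank preserving embedding. -/
theorem result :
    ∃ (X Y : Type) (_ : MetricSpace X) (_ : MetricSpace Y),
      ULF X ∧ ULF Y ∧ PropertyA Y ∧ ∃ Φ : Op X → Op Y, IsEmb Φ ∧
        ∀ p : Op Y, IsCutProj Φ p → ¬ (IsEmb (cut p Φ) ∧ RankPres (cut p Φ)) := by
  refine ⟨H584Roe.Sp, H584Roe.Sp × H584Roe.Sp, inferInstance, inferInstance, H584Roe.sp_ulf,
    H584Roe.sp2_ulf, H584Roe.sp2_propA, H584Roe.PH, H584Roe.PH_emb, ?_⟩
  intro p hp h
  exact H584Roe.no_cut hp.proj.1 hp.mem hp.comm (fun a ha b hb => h.1.inj a ha b hb)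
    (H584Roe5.compact_of_rank_one _ (h.2 _ (H584Roe.mu_mem _ _) H584Roe5.mu_rankOne).2)

end Pool.Agent.Results.MP_ab5103_an.NoRankCutDown
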